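import Pool.Agent.V11221.ConB

/-!
# MP_bb77e0_gt, Q1: the space of mm-spaces with the concentration topology is not σ-compact

All objects (mm-spaces, mm-isomorphism classes, parameters, Ky Fan metric, observable distance) are
defined in `Pool/Agent/V11221/ConA.lean`; the spaces `X_a` are in `Pool/Agent/V11221/ConB.lean`.
-/

open MeasureTheory Set Filter Topology ProbabilityTheory
open Pool.Agent.V11221.Con

namespace Pool.Agent.Results.MP_bb77e0_gt.NotSigmaCompact

lemma muA_le_of_cle (a : ℕ → ℕ) (k : ℕ) (Y : MM) {δ η : ℝ} (hδ : 0 ≤ δ) (hη : 0 ≤ η)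
    (h1 : δ + δ + η < 1)
    (h : CLE (XA a) Y δ)
    (hY : ∀ g : Fin (a k) → Y → ℝ, (∀ i, LipschitzWith 1 (g i)) →
      (∀ i y, 0 ≤ g i y ∧ g i y ≤ 1) →
      ∃ i j, i ≠ j ∧ Y.μ {y | η < |g i y - g j y|} ≤ ENNReal.ofReal η) :
    (2:ENNReal)⁻¹ ^ (k + 2) ≤ ENNReal.ofReal (δ + δ + η) := by
  obtain ⟨π, hπ, hX, hYm, hf, _⟩ := h
  have hch : ∀ i : Fin (a k), ∃ g : Y → ℝ, LipschitzWith 1 g ∧
      π {p : (XA a) × Y | δ < |bitFun a k i p.1 - g p.2|} ≤ ENNReal.ofReal δ :=
    fun i => hf (bitFun a k i) (bitFun_lip a k i)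
  choose g hg hgπ using hch
  set g' : Fin (a k) → Y → ℝ := fun i y => max 0 (min 1 (g i y)) with hg'
  have hg'lip : ∀ i, LipschitzWith 1 (g' i) := fun i => ((hg i).const_min 1).const_max 0
  have hg'mem : ∀ i y, 0 ≤ g' i y ∧ g' i y ≤ 1 := by
    intro i y
    exact ⟨le_max_left _ _, max_le zero_le_one (min_le_left _ _)⟩
  have hclose : ∀ i, ∀ p : (XA a) × Y, |bitFun a k i p.1 - g' i p.2| ≤ |bitFun a k i p.1 - g i p.2| := by
    intro i p
    have hb := bitFun_mem a k i p.1
    have e : bitFun a k i p.1 = max 0 (min 1 (bitFun a k i p.1)) := by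
      rw [min_eq_right hb.2, max_eq_right hb.1]
    have h2 : |max 0 (min 1 (bitFun a k i p.1)) - max 0 (min 1 (g i p.2))| ≤
        |bitFun a k i p.1 - g i p.2| := by
      refine (abs_max_sub_max_le_max _ _ _ _).trans ?_
      rw [sub_self, abs_zero, max_eq_right (abs_nonneg _)]
      refine (abs_min_sub_min_le_max _ _ _ _).trans ?_
      rw [sub_self, abs_zero, max_eq_right (abs_nonneg _)]
    rw [← e] at h2
    exact h2
  obtain ⟨i, j, hij, hμ⟩ := hY g' hg'lip hg'mem
  have hsep := bit_sep a k i j hij h1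
  refine hsep.trans ?_
  have hXmeas : MeasurableSet {x : Disc (Blk a) | δ + δ + η < |bitFun a k i x - bitFun a k j x|} :=
    Disc.ms _
  have hYmeas : MeasurableSet {y : Y | η < |g' i y - g' j y|} := by
    apply measurableSet_lt measurable_const
    exact ((hg'lip i).continuous.measurable.sub (hg'lip j).continuous.measurable).abs
  have e1 : muA a {x | δ + δ + η < |bitFun a k i x - bitFun a k j x|} =
      π (Prod.fst ⁻¹' {x : XA a | δ + δ + η < |bitFun a k i x - bitFun a k j x|}) := by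
    have h2 : muA a = (XA a).μ := rfl
    rw [h2, ← hX]
    exact Measure.map_apply measurable_fst hXmeas
  rw [e1, ENNReal.ofReal_add (by positivity) hη, ENNReal.ofReal_add hδ hδ]
  rw [← hYm, Measure.map_apply measurable_snd hYmeas] at hμ
  have hA : π {p : (XA a) × Y | δ < |bitFun a k i p.1 - g' i p.2|} ≤ ENNReal.ofReal δ :=
    (measure_mono fun p hp => lt_of_lt_of_le hp (hclose i p)).trans (hgπ i)
  have hB : π {p : (XA a) × Y | δ < |bitFun a k j p.1 - g' j p.2|} ≤ ENNReal.ofReal δ :=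
    (measure_mono fun p hp => lt_of_lt_of_le hp (hclose j p)).trans (hgπ j)
  refine le_trans (measure_mono ?_) ((measure_union_le _ _).trans
    (add_le_add ((measure_union_le _ _).trans (add_le_add hA hB)) hμ))
  intro p hp
  have hp' : δ + δ + η < |bitFun a k i p.1 - bitFun a k j p.1| := hp
  by_contra hcon
  simp only [mem_union, mem_setOf_eq, mem_preimage, not_or, not_lt] at hcon
  obtain ⟨⟨c1, c2⟩, c3⟩ := hcon
  have h3 : |bitFun a k i p.1 - bitFun a k j p.1| ≤ δ + δ + η := by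
    have c1' := abs_le.1 c1
    have c2' := abs_le.1 c2
    have c3' := abs_le.1 c3
    rw [abs_le]
    constructor <;> linarith [c1'.1, c1'.2, c2'.1, c2'.2, c3'.1, c3'.2]
  linarith

/-- A totally bounded set of classes contains `X_a` only for `a k` bounded. -/
lemma bounded_coord {C : Set MMClass} (hC : TotallyBounded C) (k : ℕ) :
    ∃ b : ℕ, ∀ a : ℕ → ℕ, (XA a).cls ∈ C → a k ≤ b := by
  set δ : ℝ := (1/2) ^ (k + 5) with hδ
  have hδpos : 0 < δ := by positivity
  obtain ⟨t, htf, htC⟩ := Metric.totallyBounded_iff.1 hC δ hδpos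
  have hN : ∀ y : MMClass, ∃ (Y : MM) (N : ℕ), Y.cls = y ∧
      ∀ (m : ℕ) (g : Fin m → Y → ℝ), N < m → (∀ i, LipschitzWith 1 (g i)) →
      (∀ i y, 0 ≤ g i y ∧ g i y ≤ 1) →
      ∃ i j, i ≠ j ∧ Y.μ {y | 4 * δ < |g i y - g j y|} ≤ ENNReal.ofReal (4 * δ) := by
    intro y
    obtain ⟨Y, rfl⟩ := exists_rep y
    obtain ⟨N, hN⟩ := totally Y (η := 4 * δ) (by positivity)
    exact ⟨Y, N, rfl, hN⟩
  choose Y N hYy hN using hN
  refine ⟨htf.toFinset.sup N, ?_⟩
  intro a ha
  by_contra hcon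
  push Not at hcon
  have h1 := htC ha
  simp only [mem_iUnion] at h1
  obtain ⟨y, hy, hd⟩ := h1
  rw [Metric.mem_ball] at hd
  rw [← hYy y, dist_cls] at hd
  have hNy : N y < a k := lt_of_le_of_lt (Finset.le_sup (htf.mem_toFinset.2 hy)) hcon
  have hδ32 : δ ≤ 1 / 32 := by
    have : (1/2 : ℝ) ^ (k + 5) ≤ (1/2) ^ 5 :=
      pow_le_pow_of_le_one (by norm_num) (by norm_num) (by omega)
    rw [hδ]
    refine this.trans ?_
    norm_num
  have h2 := muA_le_of_cle a k (Y y) (δ := δ) (η := 4 * δ) hδpos.le (by positivity)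
    (by linarith) (cle_of_lt hd) (fun g hg hg' => hN y (a k) g hNy hg hg')
  have h3 : (2:ENNReal)⁻¹ ^ (k + 2) = ENNReal.ofReal (8 * δ) := by
    have e : 8 * δ = (1/2 : ℝ) ^ (k + 2) := by
      rw [hδ, show k + 5 = (k + 2) + 3 by ring, pow_add (1/2 : ℝ) (k + 2) 3]
      ring
    rw [e, ENNReal.ofReal_pow (by norm_num)]
    congr 1
    rw [one_div, ENNReal.ofReal_inv_of_pos (by norm_num)]
    simp
  rw [h3] at h2
  have h4 := (ENNReal.ofReal_le_ofReal_iff (by positivity)).1 h2
  linarith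

/-- The space of mm-isomorphism classes of mm-spaces with the observable distance is not
σ-compact; it is not even a countable union of totally bounded sets. -/
theorem result : ¬ SigmaCompactSpace MMClass ∧
    ∀ K : ℕ → Set MMClass, (∀ j, TotallyBounded (K j)) → (⋃ j, K j) ≠ Set.univ := by
  have h2 : ∀ K : ℕ → Set MMClass, (∀ j, TotallyBounded (K j)) → (⋃ j, K j) ≠ Set.univ := by
    intro K hK hun
    choose b hb using fun j => bounded_coord (hK j) j
    have hmem : (XA (fun j => b j + 1)).cls ∈ ⋃ j, K j := by rw [hun]; trivial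
    obtain ⟨j, hj⟩ := mem_iUnion.1 hmem
    have := hb j _ hj
    omega
  refine ⟨?_, h2⟩
  intro hσ
  apply h2 (compactCovering MMClass)
  · intro j
    exact (isCompact_compactCovering MMClass j).totallyBounded
  · exact iUnion_compactCovering MMClass

end Pool.Agent.Results.MP_bb77e0_gt.NotSigmaCompact
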